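import Pool.Agent.H174.GP.StG

set_option autoImplicit false

/-! Comparison of the Laplace process and the block process -/

open MeasureTheory ProbabilityTheory Finset Filter Topology

namespace Pool.Agent.H824.GP174

open Pool.Agent.H174.GP

theorem S_meas (j : ℕ) : Measurable (fun ω : ℕ → ℝ => S ω j) := by
  unfold S
  fun_prop

theorem Ch_meas (L x : ℕ) : Measurable (fun ω : ℕ → ℝ => Ch ω L x) := by
  unfold Ch Cs
  fun_prop

theorem Wb_meas (K : ℕ) : Measurable (fun ω : ℕ → ℝ => Wb K ω) := by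
  rw [measurable_pi_iff]
  intro i
  unfold Wb
  exact ((S_meas _).sub (S_meas _)).div_const _

/-- telescoping -/
theorem S_Wb (K : ℕ) (hK : 1 ≤ K) (ω : ℕ → ℝ) (i : ℕ) :
    Real.sqrt 2 * S (Wb K ω) i = S ω (K * i) / Real.sqrt K := by
  have hK0 : (0 : ℝ) < K := by exact_mod_cast hK
  have h1 : S (Wb K ω) i = S ω (K * i) / Real.sqrt (2 * K) := by
    induction i with
    | zero => simp [S]
    | succ i ih =>
      have h2 : S (Wb K ω) (i + 1) = S (Wb K ω) i + Wb K ω (i + 1) := by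
        unfold S
        rw [Finset.sum_Icc_succ_top (by omega)]
      rw [h2, ih]
      unfold Wb
      rw [Nat.add_sub_cancel]
      ring
  rw [h1, Real.sqrt_mul (by norm_num)]
  have h3 : Real.sqrt 2 ≠ 0 := by positivity
  have h4 : Real.sqrt K ≠ 0 := by positivity
  field_simp

/-- the two inequalities for the powers -/
theorem pow_bd {l δ : ℝ} (hl : 1 ≤ l) (hδ : 0 < δ) {x0 x : ℕ} (hx0 : 1 ≤ x0) (hx : x0 ≤ x)
    (h : (41 * l ^ (3 / 2 : ℝ) / δ) ^ 4 ≤ x0) :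
    1 ≤ l ^ (3 / 2 : ℝ) * (x : ℝ) ^ (1 / 4 : ℝ) ∧
      41 * (l ^ (3 / 2 : ℝ) * (x : ℝ) ^ (1 / 4 : ℝ)) ≤ δ * Real.sqrt x := by
  have hx1 : (1 : ℝ) ≤ x := by exact_mod_cast hx0.trans hx
  have h1 : 1 ≤ l ^ (3 / 2 : ℝ) := Real.one_le_rpow hl (by norm_num)
  have h2 : 1 ≤ (x : ℝ) ^ (1 / 4 : ℝ) := Real.one_le_rpow hx1 (by norm_num)
  refine ⟨one_le_mul_of_one_le_of_one_le h1 h2, ?_⟩
  have h3 : 0 ≤ 41 * l ^ (3 / 2 : ℝ) / δ := by positivity
  have h4 : 41 * l ^ (3 / 2 : ℝ) / δ ≤ (x : ℝ) ^ (1 / 4 : ℝ) := by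
    have h5 : (41 * l ^ (3 / 2 : ℝ) / δ) ^ 4 ≤ ((x : ℝ) ^ (1 / 4 : ℝ)) ^ 4 := by
      have h6 : ((x : ℝ) ^ (1 / 4 : ℝ)) ^ 4 = x := by
        rw [← Real.rpow_natCast, ← Real.rpow_mul (by positivity)]
        norm_num
      rw [h6]
      exact h.trans (by exact_mod_cast hx)
    exact le_of_pow_le_pow_left₀ (by norm_num) (by positivity) h5
  rw [div_le_iff₀ hδ] at h4
  have h7 : Real.sqrt x = (x : ℝ) ^ (1 / 4 : ℝ) * (x : ℝ) ^ (1 / 4 : ℝ) := by
    rw [← Real.rpow_add (by positivity), Real.sqrt_eq_rpow]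
    norm_num
  rw [h7]
  nlinarith

/-- **gcmp** -/
theorem gp_gcmp (h1 : S_Zmp) (h2 : S_couple) (h3 : S_wdet) : Pool.Agent.H174.GP.S_gcmp := by
  intro K n x0 A δ hK hn hx0 hA hδ hl hx
  set l := 2 * (A + 1) * Real.log n with hldef
  have hK0 : (0 : ℝ) < K := by exact_mod_cast hK
  have hsK : 0 < Real.sqrt K := Real.sqrt_pos.2 hK0
  have hc := h2 K n A hK hn hA hl
  have hZ := h1 K hK
  have hF : MeasurePreserving (Prod.fst : (ℕ → ℝ) × (ℕ → ℕ) → (ℕ → ℝ)) (PP.prod (GG K)) PP :=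
    measurePreserving_fst
  set bad : Set ((ℕ → ℝ) × (ℕ → ℕ)) := {p | ∃ i ∈ Finset.Icc 1 n,
    Real.sqrt K * (8 * l ^ (3 / 2 : ℝ) * (i : ℝ) ^ (1 / 4 : ℝ)) <
      |S p.1 (K * i) - Real.sqrt K * S (fun j => Z K p j) i|} with hbad
  have key : ∀ p ∉ bad, ∀ x ∈ Finset.Icc x0 n,
      |Real.sqrt 2 * Ch (Wb K p.1) n x - Ch (fun i => Z K p i) n x| ≤
        32 * (l ^ (3 / 2 : ℝ) * (x : ℝ) ^ (1 / 4 : ℝ)) := by
    intro p hp x hx
    have h4 := h3 n x0 (Wb K p.1) (fun i => Z K p i) (8 * l ^ (3 / 2 : ℝ)) hx0 (by positivity) ?_ x hx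
    · refine h4.trans (le_of_eq ?_)
      ring
    · intro i hi
      rw [Finset.mem_Icc] at hi
      have h5 : ¬ (Real.sqrt K * (8 * l ^ (3 / 2 : ℝ) * (i : ℝ) ^ (1 / 4 : ℝ)) <
          |S p.1 (K * i) - Real.sqrt K * S (fun j => Z K p j) i|) := fun h =>
        hp ⟨i, Finset.mem_Icc.2 ⟨hx0.trans hi.1, hi.2⟩, h⟩
      rw [not_lt] at h5
      rw [S_Wb K hK]
      have h6 : S p.1 (K * i) / Real.sqrt K - S (fun i => Z K p i) i =
          (S p.1 (K * i) - Real.sqrt K * S (fun j => Z K p j) i) / Real.sqrt K := by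
        field_simp
      rw [h6, abs_div, abs_of_pos hsK, div_le_iff₀ hsK]
      linarith
  -- the transfer
  have tr : ∀ U V : Set (ℕ → ℝ), MeasurableSet U → MeasurableSet V →
      (∀ p ∉ bad, (fun i => Z K p i) ∈ U → p.1 ∈ V) → PP.real U ≤ PP.real V + 40 * (n : ℝ) ^ (-A) := by
    intro U V hU hV hUV
    rw [← hZ.measureReal_preimage hU.nullMeasurableSet, ← hF.measureReal_preimage hV.nullMeasurableSet]
    refine le_trans (measureReal_mono (s₂ := (Prod.fst ⁻¹' V) ∪ bad) ?_) ?_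
    · intro p hp
      by_cases h : p ∈ bad
      · exact Or.inr h
      · exact Or.inl (hUV p h hp)
    · exact (measureReal_union_le _ _).trans (add_le_add_right hc _)
  have tr' : ∀ U V : Set (ℕ → ℝ), MeasurableSet U → MeasurableSet V →
      (∀ p ∉ bad, p.1 ∈ V → (fun i => Z K p i) ∈ U) → PP.real V ≤ PP.real U + 40 * (n : ℝ) ^ (-A) := by
    intro U V hU hV hUV
    rw [← hZ.measureReal_preimage hU.nullMeasurableSet, ← hF.measureReal_preimage hV.nullMeasurableSet]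
    refine le_trans (measureReal_mono (s₂ := ((fun p => (fun i => Z K p i)) ⁻¹' U) ∪ bad) ?_) ?_
    · intro p hp
      by_cases h : p ∈ bad
      · exact Or.inr h
      · exact Or.inl (hUV p h hp)
    · exact (measureReal_union_le _ _).trans (add_le_add_right hc _)
  have m1 : ∀ t : ℕ → ℝ, MeasurableSet {ω : ℕ → ℝ | ∀ x ∈ Finset.Icc x0 n, t x ≤ Ch ω n x} := by
    intro t
    have : {ω : ℕ → ℝ | ∀ x ∈ Finset.Icc x0 n, t x ≤ Ch ω n x} =
        ⋂ x ∈ Finset.Icc x0 n, {ω : ℕ → ℝ | t x ≤ Ch ω n x} := by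
      ext ω
      simp
    rw [this]
    exact Finset.measurableSet_biInter _ fun x _ => measurableSet_le measurable_const (Ch_meas n x)
  have m2 : MeasurableSet {ω : ℕ → ℝ | ∀ x ∈ Finset.Icc x0 n, -1 < Ch ω n x} := by
    have : {ω : ℕ → ℝ | ∀ x ∈ Finset.Icc x0 n, -1 < Ch ω n x} =
        ⋂ x ∈ Finset.Icc x0 n, {ω : ℕ → ℝ | -1 < Ch ω n x} := by
      ext ω
      simp
    rw [this]
    exact Finset.measurableSet_biInter _ fun x _ => measurableSet_lt measurable_const (Ch_meas n x)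
  have s2 : 1 ≤ Real.sqrt 2 := by
    rw [Real.one_le_sqrt]
    norm_num
  have s2' : Real.sqrt 2 ≤ 2 := by
    rw [Real.sqrt_le_left (by norm_num)]
    norm_num
  constructor
  · refine tr _ _ (m1 fun x => δ * Real.sqrt x) ((Wb_meas K) (m1 fun _ => 0)) ?_
    intro p hp hU x hx'
    have h4 := key p hp x hx'
    have h5 := hU x hx'
    have h6 := (pow_bd hl hδ hx0 (Finset.mem_Icc.1 hx').1 hx)
    rw [abs_le] at h4
    have h7 : 0 ≤ Real.sqrt 2 * Ch (Wb K p.1) n x := by linarith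
    exact nonneg_of_mul_nonneg_right h7 (by linarith)
  · refine tr' _ _ (m1 fun x => -(δ * Real.sqrt x)) ((Wb_meas K) m2) ?_
    intro p hp hV x hx'
    have h4 := key p hp x hx'
    have h5 : -1 < Ch (Wb K p.1) n x := hV x hx'
    have h6 := (pow_bd hl hδ hx0 (Finset.mem_Icc.1 hx').1 hx)
    rw [abs_le] at h4
    have h7 : -2 ≤ Real.sqrt 2 * Ch (Wb K p.1) n x := by nlinarith
    have h8 : -(δ * Real.sqrt x) ≤ Ch (fun i => Z K p i) n x := by linarith
    exact h8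

end Pool.Agent.H824.GP174
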